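import Mathlib
import Pool.Agent.H14.INS.SCP

/-!
# MP_2afb6f_co: a finite family which is not spectral-consistent

There is a finite family of graphs with `p = 2` (the least chromatic number is `3`) whose
decomposition family contains a matching, such that for infinitely many `n` some graph on `n` vertices
of maximum spectral radius among the graphs without a member of the family does not have the maximum
number of edges.  This is the negated form of Q1.
-/

open Pool.SpecCons

namespace Pool.Agent.Results.MP_2afb6f_co.NotConsistent

/-- The negated form of Q1. -/
theorem result :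
    ∃ (m : ℕ) (k : Fin m → ℕ) (F : ∀ i : Fin m, SimpleGraph (Fin (k i))),
      IsLeast (Set.range fun i => (F i).chromaticNumber) ((2 + 1 : ℕ) : ℕ∞) ∧
      (∃ j : ℕ, 1 ≤ j ∧ Decomp 2 F (matching j)) ∧
      {n : ℕ | ¬ SPEX F n ⊆ EX F n}.Infinite :=
  ⟨_, _, Pool.Agent.H41.SC.FF, chi_least, exists_decomp, not_consistent⟩

end Pool.Agent.Results.MP_2afb6f_co.NotConsistent
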